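import Pool.Agent.TH232.Cog.Mul

set_option autoImplicit false
open Filter Topology MeasureTheory Complex

namespace Pool.Agent.TH232.Cog

theorem closed_tend {E : Type*} [NormedAddCommGroup E] (φ : ℕ → E → ℂ) (C : ℝ)
    (hφ : ∀ n x y, ‖φ n x - φ n y‖ ≤ C * ‖x - y‖) :
    IsClosed {x | Tendsto (fun n => φ n x) atTop (𝓝 0)} := by
  rw [← isSeqClosed_iff_isClosed]
  intro u x hu hx
  simp only [Set.mem_ofPred_eq] at hu ⊢
  rw [Metric.tendsto_nhds]
  intro ε hε
  have hC : 0 ≤ |C| := abs_nonneg C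
  obtain ⟨i, hi⟩ := (Metric.tendsto_nhds.1 hx (ε / (2 * (|C| + 1))) (by positivity)).exists
  filter_upwards [Metric.tendsto_nhds.1 (hu i) (ε / 2) (by positivity)] with n hn
  rw [dist_zero_right] at hn ⊢
  rw [dist_eq_norm, norm_sub_rev] at hi
  have h1 := hφ n x (u i)
  have h2 : ‖φ n x‖ ≤ ‖φ n x - φ n (u i)‖ + ‖φ n (u i)‖ := by
    simpa using norm_add_le (φ n x - φ n (u i)) (φ n (u i))
  have h3 : C * ‖x - u i‖ ≤ ε / 2 := by
    rw [lt_div_iff₀ (by positivity)] at hi
    have h4 : C * ‖x - u i‖ ≤ |C| * ‖x - u i‖ := by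
      apply mul_le_mul_of_nonneg_right (le_abs_self _) (norm_nonneg _)
    nlinarith [norm_nonneg (x - u i)]
  linarith

theorem integ (g : C(K, ℂ)) : Integrable (fun x => g x) (μ : Measure K) :=
  g.continuous.integrable_of_hasCompactSupport (HasCompactSupport.of_compactSpace _)

/-- the functionals `g ↦ ∫ conj(v)^n g` -/
noncomputable def L (n : ℕ) (g : C(K, ℂ)) : ℂ :=
  ∫ x, ((star vK) ^ n * g) x ∂(μ : Measure K)

theorem L_add (n : ℕ) (g h : C(K, ℂ)) : L n (g + h) = L n g + L n h := by
  unfold L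
  rw [← integral_add (integ _) (integ _)]
  refine integral_congr_ae (Eventually.of_forall fun x => ?_)
  simp [mul_add]

theorem L_smul (n : ℕ) (c : ℂ) (g : C(K, ℂ)) : L n (c • g) = c * L n g := by
  unfold L
  rw [← integral_const_mul]
  refine integral_congr_ae (Eventually.of_forall fun x => ?_)
  simp only [ContinuousMap.mul_apply, ContinuousMap.smul_apply, smul_eq_mul]
  ring

theorem vK_norm (x : K) : ‖vK x‖ = 1 := v_norm _

theorem L_lip (n : ℕ) (g h : C(K, ℂ)) : ‖L n g - L n h‖ ≤ 1 * ‖g - h‖ := by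
  have h1 : L n g - L n h = L n (g - h) := by
    have : L n g = L n (g - h) + L n h := by rw [← L_add]; simp
    rw [this]; ring
  rw [h1]
  unfold L
  refine (norm_integral_le_of_norm_le_const (C := ‖g - h‖) (Eventually.of_forall fun x => ?_)).trans ?_
  · simp only [ContinuousMap.mul_apply, ContinuousMap.pow_apply, ContinuousMap.star_apply, norm_mul,
      norm_pow, norm_star, vK_norm, one_pow, one_mul]
    exact (g - h).norm_coe_le_norm x
  · simp

theorem star_vK_mul : star vK * vK = 1 := by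
  ext x
  have h := vK_norm x
  simp only [ContinuousMap.mul_apply, ContinuousMap.star_apply, ContinuousMap.one_apply,
    RCLike.star_def]
  rw [← normSq_eq_conj_mul_self, normSq_eq_norm_sq, h]
  simp

def W : Set C(K, ℂ) := {g | Tendsto (fun n => L n g) atTop (𝓝 0)}

theorem W_closed : IsClosed W := closed_tend L 1 L_lip

theorem W_one : (1 : C(K, ℂ)) ∈ W := by
  have h := μ_v
  have h2 := (Complex.continuous_conj.tendsto 0).comp h
  simp only [map_zero] at h2
  refine h2.congr fun n => ?_
  simp only [Function.comp]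
  unfold L
  rw [← integral_conj]
  refine integral_congr_ae (Eventually.of_forall fun x => ?_)
  simp [vK]

theorem W_v (g : C(K, ℂ)) (hg : g ∈ W) : vK * g ∈ W := by
  have h1 : Tendsto (fun n => L (n + 1) (vK * g)) atTop (𝓝 0) := by
    have : ∀ n, L (n + 1) (vK * g) = L n g := by
      intro n
      have h0 : (star vK) ^ (n + 1) * (vK * g) = (star vK) ^ n * g := by
        have h := star_vK_mul
        calc (star vK) ^ (n + 1) * (vK * g) = (star vK) ^ n * (star vK * vK) * g := by ring
          _ = (star vK) ^ n * g := by rw [h, mul_one]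
      unfold L
      rw [h0]
    have hg' : Tendsto (fun n => L n g) atTop (𝓝 0) := hg
    simpa only [this] using hg'
  exact (tendsto_add_atTop_iff_nat 1).1 h1

theorem W_sv (g : C(K, ℂ)) (hg : g ∈ W) : star vK * g ∈ W := by
  have : ∀ n, L n (star vK * g) = L (n + 1) g := by
    intro n
    have h0 : (star vK) ^ n * (star vK * g) = (star vK) ^ (n + 1) * g := by ring
    unfold L
    rw [h0]
  have h1 : Tendsto (fun n => L (n + 1) g) atTop (𝓝 0) := (tendsto_add_atTop_iff_nat 1).2 hg
  show Tendsto (fun n => L n (star vK * g)) atTop (𝓝 0)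
  simpa only [this] using h1

/-- the multipliers of `W` -/
def mulW : Subalgebra ℂ C(K, ℂ) where
  carrier := {a | ∀ g ∈ W, a * g ∈ W}
  mul_mem' := by
    intro a b ha hb g hg
    rw [mul_assoc]
    exact ha _ (hb _ hg)
  add_mem' := by
    intro a b ha hb g hg
    have h1 := (ha g hg).add (hb g hg)
    rw [add_zero] at h1
    show Tendsto (fun n => L n ((a + b) * g)) atTop (𝓝 0)
    refine h1.congr fun n => ?_
    rw [add_mul, L_add]
  algebraMap_mem' := by
    intro c g hg
    have h1 := Tendsto.const_mul c hg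
    rw [mul_zero] at h1
    show Tendsto (fun n => L n (algebraMap ℂ C(K, ℂ) c * g)) atTop (𝓝 0)
    refine h1.congr fun n => ?_
    rw [← L_smul]
    rfl

theorem adj_le : (StarAlgebra.adjoin ℂ {vK}).toSubalgebra ≤ mulW := by
  rw [StarAlgebra.adjoin_toSubalgebra]
  refine Algebra.adjoin_le ?_
  rintro a (ha | ha)
  · rw [Set.mem_singleton_iff] at ha
    subst ha
    exact W_v
  · rw [Set.mem_star, Set.mem_singleton_iff] at ha
    have : a = star vK := by rw [← ha, star_star]
    subst this
    exact W_sv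

theorem vK_inj : Function.Injective vK := by
  intro x y h
  have h1 : v (x : ℝ) = v (y : ℝ) := h
  unfold v at h1
  have hx := den_ne (x : ℝ)
  have hy := den_ne (y : ℝ)
  have h2 : (2 : ℂ) / (1 - I * ((x : ℝ) : ℂ)) = 2 / (1 - I * ((y : ℝ) : ℂ)) := by
    linear_combination -h1
  rw [div_eq_div_iff hx hy] at h2
  have h3 : I * ((x : ℝ) : ℂ) = I * ((y : ℝ) : ℂ) := by linear_combination (1/2 : ℂ) * h2
  have h4 : ((x : ℝ) : ℂ) = ((y : ℝ) : ℂ) := mul_left_cancel₀ I_ne_zero h3
  exact Subtype.ext (ofReal_injective h4)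

theorem adj_dense : (StarAlgebra.adjoin ℂ {vK} : StarSubalgebra ℂ C(K, ℂ)).topologicalClosure = ⊤ := by
  apply ContinuousMap.starSubalgebra_topologicalClosure_eq_top_of_separatesPoints
  intro x y hxy
  refine ⟨vK, ⟨vK, ?_, rfl⟩, fun h => hxy (vK_inj h)⟩
  exact StarAlgebra.subset_adjoin ℂ _ rfl

theorem W_top (g : C(K, ℂ)) : g ∈ W := by
  have h1 : g ∈ (StarAlgebra.adjoin ℂ {vK} : StarSubalgebra ℂ C(K, ℂ)).topologicalClosure := by
    rw [adj_dense]; trivial
  have h2 : g ∈ closure ((StarAlgebra.adjoin ℂ {vK} : StarSubalgebra ℂ C(K, ℂ)) : Set C(K, ℂ)) := h1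
  refine W_closed.closure_subset_iff.2 ?_ h2
  intro a ha
  have h3 : a ∈ mulW := adj_le ha
  have h4 := h3 1 W_one
  rwa [mul_one] at h4

theorem vK_le : ‖vK‖ ≤ 1 := by
  rw [ContinuousMap.norm_le _ zero_le_one]
  exact fun x => (vK_norm x).le

theorem pow_le (n : ℕ) : ‖M (vK ^ n)‖ ≤ 1 := by
  refine (M_norm _).trans ?_
  rw [ContinuousMap.norm_le _ zero_le_one]
  intro x
  rw [ContinuousMap.pow_apply, norm_pow, vK_norm, one_pow]

theorem vec_tend (a b : C(K, ℂ)) :
    Tendsto (fun n : ℕ => inner ℂ (M (vK ^ n) (vec a)) (vec b)) atTop (𝓝 0) := by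
  have h : Tendsto (fun n => L n (star a * b)) atTop (𝓝 0) := W_top (star a * b)
  refine h.congr fun n => ?_
  rw [inner_M]
  unfold L
  refine integral_congr_ae (Eventually.of_forall fun x => ?_)
  simp

theorem vec_dense : Dense (Set.range vec) :=
  ContinuousMap.toLp_denseRange ℂ (μ : Measure K) ℂ (by norm_num)

theorem weak (x y : H) : Tendsto (fun n : ℕ => inner ℂ (M (vK ^ n) x) y) atTop (𝓝 0) := by
  -- extend in `y` first
  have h1 : ∀ (a : C(K, ℂ)) (y : H),
      Tendsto (fun n : ℕ => inner ℂ (M (vK ^ n) (vec a)) y) atTop (𝓝 0) := by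
    intro a y
    have hc : IsClosed {y : H | Tendsto (fun n : ℕ => inner ℂ (M (vK ^ n) (vec a)) y) atTop (𝓝 0)} := by
      refine closed_tend (fun n y => inner ℂ (M (vK ^ n) (vec a)) y) ‖vec a‖ fun n x y => ?_
      rw [← inner_sub_right]
      refine (norm_inner_le_norm _ _).trans ?_
      refine mul_le_mul_of_nonneg_right ?_ (norm_nonneg _)
      exact (ContinuousLinearMap.le_of_opNorm_le _ (pow_le n) _).trans (by rw [one_mul])
    have hs : Set.range vec ⊆ {y : H | Tendsto (fun n : ℕ => inner ℂ (M (vK ^ n) (vec a)) y) atTop (𝓝 0)} := by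
      rintro _ ⟨b, rfl⟩
      exact vec_tend a b
    have := hc.closure_subset_iff.2 hs
    exact this (vec_dense y)
  have hc : IsClosed {x : H | Tendsto (fun n : ℕ => inner ℂ (M (vK ^ n) x) y) atTop (𝓝 0)} := by
    refine closed_tend (fun n x => inner ℂ (M (vK ^ n) x) y) ‖y‖ fun n x x' => ?_
    rw [← inner_sub_left, ← map_sub]
    refine (norm_inner_le_norm _ _).trans ?_
    rw [mul_comm]
    refine mul_le_mul_of_nonneg_left ?_ (norm_nonneg _)
    exact (ContinuousLinearMap.le_of_opNorm_le _ (pow_le n) _).trans (by rw [one_mul])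
  have hs : Set.range vec ⊆ {x : H | Tendsto (fun n : ℕ => inner ℂ (M (vK ^ n) x) y) atTop (𝓝 0)} := by
    rintro _ ⟨a, rfl⟩
    exact h1 a y
  exact hc.closure_subset_iff.2 hs (vec_dense x)

theorem not_weak : ¬ Tendsto (fun t : ℝ => inner ℂ (T t (vec 1)) (vec 1)) atTop (𝓝 0) := by
  intro h
  have h1 : Tendsto (fun k : ℕ => ((((seq (k + 1)).r : ℕ) : ℝ))) atTop atTop :=
    tendsto_natCast_atTop_atTop.comp (seq_mono.tendsto_atTop.comp (tendsto_add_atTop_nat 1))
  have h2 := (h.comp h1).norm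
  rw [norm_zero] at h2
  have h3 := ge_of_tendsto h2 (b := 1 / 5) (Eventually.of_forall fun k => ?_)
  · norm_num at h3
  · refine (μ_e k).trans (le_of_eq ?_)
    simp only [Function.comp]
    unfold T
    rw [inner_M]
    congr 1
    refine integral_congr_ae (Eventually.of_forall fun x => ?_)
    simp only [e, ContinuousMap.coe_mk, ContinuousMap.one_apply, map_one, mul_one]
    rw [← exp_conj]
    congr 1
    simp

theorem iter (F : H → H) (hF : ∀ z, F z = M vK z) (n : ℕ) (x : H) : F^[n] x = M (vK ^ n) x := by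
  have : F = fun z => M vK z := funext hF
  subst this
  induction n generalizing x with
  | zero => simp [M_one]
  | succ n ih =>
    rw [Function.iterate_succ_apply, ih, pow_succ, M_mul]
    rfl

theorem T_zero : T 0 = 1 := by
  unfold T
  rw [e_zero, M_one]

theorem T_add (s t : ℝ) : T (s + t) = T s * T t := by
  unfold T
  rw [e_add, M_mul]

theorem T_norm (t : ℝ) : ‖T t‖ ≤ 1 := (M_norm _).trans (e_norm_le t)

theorem T_cont (x : H) : Continuous fun t => T t x :=
  ((ContinuousLinearMap.apply ℂ H x).comp M).continuous.comp e_cont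

end Pool.Agent.TH232.Cog
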