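import Pool.Agent.TH232.Cog.Osc

set_option autoImplicit false
open Filter Topology MeasureTheory Complex intervalIntegral

namespace Pool.Agent.TH232.Cog

/-- the Cayley transform, `v x = (ix+1)/(ix-1)`, written as `1 - 2/(1-ix)` -/
noncomputable def v (x : ℝ) : ℂ := 1 - 2 / (1 - I * (x : ℂ))

theorem den_ne (x : ℝ) : (1 - I * (x : ℂ)) ≠ 0 := by
  intro h
  have := congrArg Complex.re h
  simp at this

theorem v_eq (x : ℝ) : v x = (-1 - I * (x : ℂ)) / (1 - I * (x : ℂ)) := by
  have := den_ne x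
  unfold v
  field_simp
  ring

theorem v_norm (x : ℝ) : ‖v x‖ = 1 := by
  rw [v_eq, norm_div]
  have h : ‖(-1 - I * (x : ℂ))‖ = ‖(1 - I * (x : ℂ))‖ := by
    rw [← sq_eq_sq₀ (norm_nonneg _) (norm_nonneg _), ← normSq_eq_norm_sq, ← normSq_eq_norm_sq]
    simp [normSq_apply]
  rw [h, div_self (norm_ne_zero_iff.2 (den_ne x))]

theorem v_cont : Continuous v := by
  unfold v
  exact continuous_const.sub (continuous_const.div₀
    (continuous_const.sub (continuous_const.mul continuous_ofReal)) den_ne)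

theorem v_deriv (x : ℝ) : HasDerivAt v (I * ((2 / (1 + x ^ 2) : ℝ) : ℂ) * v x) x := by
  have h0 : HasDerivAt (fun y : ℝ => (y : ℂ)) 1 x := Complex.ofRealCLM.hasDerivAt
  have h1 : HasDerivAt (fun y : ℝ => (1 - I * (y : ℂ))) (-(I * 1)) x :=
    (h0.const_mul I).const_sub 1
  have h2 : HasDerivAt v (-(-(2 * -(I * 1)) / (1 - I * (x : ℂ)) ^ 2)) x := by
    have h3 := ((hasDerivAt_const x (2 : ℂ)).div h1 (den_ne x)).const_sub 1
    refine (h3.congr_deriv ?_)
    simp
  refine h2.congr_deriv ?_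
  rw [v_eq]
  have hd := den_ne x
  have hd2 : (1 + I * (x : ℂ)) ≠ 0 := by
    intro h
    have := congrArg Complex.re h
    simp at this
  have hx : (1 + (x : ℂ) ^ 2) = (1 - I * (x : ℂ)) * (1 + I * (x : ℂ)) := by
    linear_combination (x : ℂ) ^ 2 * I_mul_I
  push_cast
  rw [hx]
  field_simp
  ring

/-- the oscillating factor -/
noncomputable def E (m : ℤ) (n : ℕ) (x : ℝ) : ℂ := exp (I * (m : ℂ) * (x : ℂ)) * v x ^ n

theorem exp_norm (m : ℤ) (x : ℝ) : ‖exp (I * (m : ℂ) * (x : ℂ))‖ = 1 := by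
  rw [norm_exp]
  simp

theorem E_norm (m : ℤ) (n : ℕ) (x : ℝ) : ‖E m n x‖ = 1 := by
  unfold E
  rw [norm_mul, norm_pow, v_norm, exp_norm]
  simp

theorem E_cont (m : ℤ) (n : ℕ) : Continuous (E m n) := by
  unfold E
  exact (continuous_exp.comp (continuous_const.mul continuous_ofReal)).mul (v_cont.pow n)

theorem E_deriv (m : ℤ) (n : ℕ) (x : ℝ) :
    HasDerivAt (E m n) (I * (((m : ℝ) + n * (2 / (1 + x ^ 2)) : ℝ) : ℂ) * E m n x) x := by
  have h0 : HasDerivAt (fun y : ℝ => (y : ℂ)) 1 x := Complex.ofRealCLM.hasDerivAt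
  have h1 : HasDerivAt (fun y : ℝ => exp (I * (m : ℂ) * (y : ℂ)))
      (exp (I * (m : ℂ) * (x : ℂ)) * (I * (m : ℂ) * 1)) x :=
    (h0.const_mul (I * (m : ℂ))).cexp
  have h2 : HasDerivAt (fun y : ℝ => v y ^ n) (n * (I * ((2 / (1 + x ^ 2) : ℝ) : ℂ)) * v x ^ n) x := by
    refine ((v_deriv x).pow n).congr_deriv ?_
    rcases n with _ | n
    · simp
    · rw [Nat.add_sub_cancel]
      ring
  refine (h1.mul h2).congr_deriv ?_
  unfold E
  push_cast
  ring

theorem w_deriv (m : ℤ) (n : ℕ) (x : ℝ) :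
    HasDerivAt (fun y : ℝ => (m : ℝ) + n * (2 / (1 + y ^ 2))) (-(n * (4 * x / (1 + x ^ 2) ^ 2))) x := by
  have h1 : HasDerivAt (fun y : ℝ => 1 + y ^ 2) (2 * x) x := by
    have := ((hasDerivAt_id x).pow 2).const_add 1
    refine this.congr_deriv ?_
    simp
  have h2 := (((hasDerivAt_const x (2:ℝ)).div h1 (by positivity)).const_mul (n : ℝ)).const_add (m : ℝ)
  refine h2.congr_deriv ?_
  ring

/-- the size of the parameter -/
def N (m : ℤ) (n : ℕ) : ℝ := max |(m : ℝ)| (n : ℝ)

theorem E_int (m : ℤ) (n : ℕ) (hN : 1 ≤ N m n) :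
    ‖∫ x in (1:ℝ)..2, E m n x‖ ≤ 40 / √(N m n) := by
  set L := N m n with hL
  set l := √L with hl
  have hLpos : 0 < L := by linarith
  have hlpos : 0 < l := Real.sqrt_pos.2 hLpos
  have hl2 : l ^ 2 = L := Real.sq_sqrt hLpos.le
  have hl1 : 1 ≤ l := by
    rw [hl]; exact Real.one_le_sqrt.2 hN
  set w : ℝ → ℝ := fun y => (m : ℝ) + n * (2 / (1 + y ^ 2)) with hw
  set κ : ℝ → ℝ := fun x => -(n * (4 * x / (1 + x ^ 2) ^ 2)) with hκ
  have hκc : Continuous κ := by
    simp only [hκ]
    refine (continuous_const.mul ((continuous_const.mul continuous_id).div₀ ?_ ?_)).neg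
    · exact (continuous_const.add (continuous_id.pow 2)).pow 2
    · intro x; positivity
  have hwc : Continuous w := continuous_iff_continuousAt.2 fun x => (w_deriv m n x).continuousAt
  have hneg : ∀ x ∈ Set.Icc (1:ℝ) 2, 0 ≤ (-1) * κ x := by
    intro x hx
    simp only [hκ]
    have : 0 ≤ x := by linarith [hx.1]
    have h2 : 0 ≤ 4 * x / (1 + x ^ 2) ^ 2 := by positivity
    have h3 : (0:ℝ) ≤ n := Nat.cast_nonneg n
    nlinarith [mul_nonneg h3 h2]
  have key := osc (E m n) w κ (-1) (Or.inr rfl) (E_deriv m n) (w_deriv m n) hκc hneg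
    (fun x => (E_norm m n x).le) l hlpos
  have hr : Continuous fun x => l ^ 2 / (w x ^ 2 + l ^ 2) :=
    continuous_const.div₀ ((hwc.pow 2).add continuous_const) (fun x => by positivity)
  have hpi := Real.pi_lt_d2
  have third : ∫ x in (1:ℝ)..2, l ^ 2 / (w x ^ 2 + l ^ 2) ≤ 32 / l := by
    by_cases hc : |(m : ℝ)| / 2 ≤ n
    · -- second derivative dominates
      have hn : L / 2 ≤ n := by
        have h1 : L = max |(m : ℝ)| (n : ℝ) := hL
        have h3 : (0:ℝ) ≤ n := Nat.cast_nonneg n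
        rcases max_cases |(m : ℝ)| (n : ℝ) with h | h <;> rw [h1, h.1] <;> linarith
      have hnpos : (0:ℝ) < n := by linarith
      have hat : ∀ x, HasDerivAt (fun y => (-1) * (Real.arctan (w y / l) / l))
          ((-1) * (κ x / (w x ^ 2 + l ^ 2))) x := by
        intro x
        have h8 := (((w_deriv m n x).div_const l).arctan.div_const l).const_mul (-1)
        refine h8.congr_deriv ?_
        congr 1
        have hp : w x ^ 2 + l ^ 2 ≠ 0 := by positivity
        have hl' := hlpos.ne'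
        have hp2 : 1 + (w x / l) ^ 2 = (w x ^ 2 + l ^ 2) / l ^ 2 := by field_simp; ring
        simp only [hw, hκ] at hp2 ⊢
        rw [hp2]
        field_simp
      have hKc : Continuous fun x => (-1) * (κ x / (w x ^ 2 + l ^ 2)) :=
        continuous_const.mul (hκc.div₀ ((hwc.pow 2).add continuous_const) (fun x => by positivity))
      have hKint : ∫ x in (1:ℝ)..2, (-1) * (κ x / (w x ^ 2 + l ^ 2))
          = (-1) * (Real.arctan (w 2 / l) / l) - (-1) * (Real.arctan (w 1 / l) / l) :=
        integral_eq_sub_of_hasDerivAt (fun x _ => hat x) (hKc.intervalIntegrable _ _)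
      have hKb : ∫ x in (1:ℝ)..2, (-1) * (κ x / (w x ^ 2 + l ^ 2)) ≤ 4 / l := by
        rw [hKint]
        have a2 := Real.neg_pi_div_two_lt_arctan (w 2 / l)
        have a3 := Real.arctan_lt_pi_div_two (w 1 / l)
        have : (-1) * (Real.arctan (w 2 / l) / l) - (-1) * (Real.arctan (w 1 / l) / l)
            = ((-1) * (Real.arctan (w 2 / l) - Real.arctan (w 1 / l))) / l := by ring
        rw [this]
        apply div_le_div_of_nonneg_right _ hlpos.le
        linarith
      have hle : ∫ x in (1:ℝ)..2, l ^ 2 / (w x ^ 2 + l ^ 2)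
          ≤ ∫ x in (1:ℝ)..2, 8 * ((-1) * (κ x / (w x ^ 2 + l ^ 2))) := by
        refine integral_mono_on (by norm_num) (hr.intervalIntegrable _ _)
          ((continuous_const.mul hKc).intervalIntegrable _ _) fun x hx => ?_
        have hp : 0 < w x ^ 2 + l ^ 2 := by positivity
        rw [show 8 * ((-1) * (κ x / (w x ^ 2 + l ^ 2))) = (8 * (-κ x)) / (w x ^ 2 + l ^ 2) by ring]
        apply div_le_div_of_nonneg_right _ hp.le
        have hk : (n : ℝ) / 4 ≤ - κ x := by
          simp only [hκ, neg_neg]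
          have h1 : (1:ℝ) / 4 ≤ 4 * x / (1 + x ^ 2) ^ 2 := by
            rw [div_le_div_iff₀ (by norm_num) (by positivity)]
            have h2 := hx.1
            have h3 := hx.2
            nlinarith [mul_nonneg (sub_nonneg.2 h2) (sub_nonneg.2 h3), sq_nonneg (x-1), sq_nonneg (x-2),
              mul_nonneg (mul_nonneg (sub_nonneg.2 h2) (sub_nonneg.2 h3)) (sub_nonneg.2 h2),
              mul_nonneg (mul_nonneg (sub_nonneg.2 h2) (sub_nonneg.2 h3)) (mul_nonneg (sub_nonneg.2 h2) (sub_nonneg.2 h2))]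
          nlinarith
        rw [hl2]
        linarith
      rw [intervalIntegral.integral_const_mul] at hle
      calc _ ≤ _ := hle
        _ ≤ 8 * (4 / l) := by linarith
        _ = 32 / l := by ring
    · push Not at hc
      have hm : L = |(m : ℝ)| := by
        have h1 : L = max |(m : ℝ)| (n : ℝ) := hL
        rw [h1, max_eq_left]
        have := abs_nonneg (m : ℝ)
        linarith
      have hle : ∫ x in (1:ℝ)..2, l ^ 2 / (w x ^ 2 + l ^ 2) ≤ ∫ x in (1:ℝ)..2, 4 / L := by
        refine integral_mono_on (by norm_num) (hr.intervalIntegrable _ _)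
          (continuous_const.intervalIntegrable _ _) fun x hx => ?_
        have hp : 0 < w x ^ 2 + l ^ 2 := by positivity
        rw [div_le_div_iff₀ hp hLpos, hl2]
        have h1 : L / 2 ≤ |w x| := by
          have h2 : |(n : ℝ) * (2 / (1 + x ^ 2))| ≤ (n : ℝ) := by
            have h3 : 0 ≤ 2 / (1 + x ^ 2) := by positivity
            have h4 : 2 / (1 + x ^ 2) ≤ 1 := by
              rw [div_le_one (by positivity)]
              nlinarith [hx.1]
            rw [abs_mul, abs_of_nonneg (Nat.cast_nonneg n), abs_of_nonneg h3]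
            exact mul_le_of_le_one_right (Nat.cast_nonneg n) h4
          have h5 : |(m : ℝ)| ≤ |w x| + |(n : ℝ) * (2 / (1 + x ^ 2))| := by
            have : (m : ℝ) = w x - (n : ℝ) * (2 / (1 + x ^ 2)) := by simp only [hw]; ring
            conv_lhs => rw [this]
            exact abs_sub _ _
          linarith
        have h6 : L ^ 2 / 4 ≤ w x ^ 2 := by
          rw [← sq_abs (w x)]
          nlinarith
        nlinarith
      rw [intervalIntegral.integral_const] at hle
      have h7 : 4 / L ≤ 4 / l := by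
        apply div_le_div_of_nonneg_left (by norm_num) hlpos
        rw [← hl2]; nlinarith
      calc _ ≤ _ := hle
        _ = 4 / L := by norm_num
        _ ≤ 4 / l := h7
        _ ≤ 32 / l := by apply div_le_div_of_nonneg_right _ hlpos.le; norm_num
  calc _ ≤ _ := key
    _ ≤ 8 / l + 32 / l := by
      refine add_le_add ?_ third
      apply div_le_div_of_nonneg_right _ hlpos.le
      linarith
    _ = 40 / l := by ring

/-- uniform decay in both parameters -/
theorem E_tend : Tendsto (fun p : ℤ × ℕ => ∫ x in (1:ℝ)..2, E p.1 p.2 x) cofinite (𝓝 0) := by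
  rw [Metric.tendsto_nhds]
  intro ε hε
  rw [Filter.eventually_cofinite]
  obtain ⟨R, hR⟩ := exists_nat_gt ((40 / ε) ^ 2 + 1)
  have hfin : (Set.Icc (-(R : ℤ)) R ×ˢ Set.Iic R : Set (ℤ × ℕ)).Finite :=
    (Set.finite_Icc _ _).prod (Set.finite_Iic _)
  refine hfin.subset ?_
  rintro ⟨m, n⟩ hp
  by_contra hnot
  apply hp
  have hN : (R : ℝ) ≤ N m n := by
    by_contra hlt
    push Not at hlt
    apply hnot
    have h1 : |(m : ℝ)| < R := lt_of_le_of_lt (le_max_left _ _) hlt
    have h2 : (n : ℝ) < R := lt_of_le_of_lt (le_max_right _ _) hlt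
    have h3 : |m| < (R : ℤ) := by exact_mod_cast h1
    have h4 : n < R := by exact_mod_cast h2
    rw [abs_lt] at h3
    exact ⟨⟨h3.1.le, h3.2.le⟩, h4.le⟩
  have hpos : 0 < 40 / ε := by positivity
  have h1N : 1 ≤ N m n := by nlinarith
  have hb := E_int m n h1N
  rw [dist_zero_right]
  refine lt_of_le_of_lt hb ?_
  have hs : 40 / ε < √(N m n) := by
    apply Real.lt_sqrt_of_sq_lt
    linarith
  have hspos : 0 < √(N m n) := lt_trans hpos hs
  rw [div_lt_iff₀ hspos]
  rw [div_lt_iff₀ hε] at hs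
  linarith

end Pool.Agent.TH232.Cog
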