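import Pool.Agent.TH232.Cog.Riesz

set_option autoImplicit false
open Filter Topology MeasureTheory Complex intervalIntegral

namespace Pool.Agent.TH232.Cog

/-- the compact interval -/
abbrev K : Type := Set.Icc (1:ℝ) 2

noncomputable def μ0 : Measure K := Measure.comap Subtype.val volume

theorem int_μ0 {E : Type*} [NormedAddCommGroup E] [NormedSpace ℝ E] (g : ℝ → E) :
    ∫ x : K, g x ∂μ0 = ∫ x in (1:ℝ)..2, g x := by
  unfold μ0
  rw [integral_subtype_comap measurableSet_Icc, integral_of_le (by norm_num),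
    integral_Icc_eq_integral_Ioc]

instance : IsFiniteMeasure μ0 := by
  unfold μ0
  constructor
  rw [Measure.comap_apply _ Subtype.val_injective (fun s hs => measurableSet_Icc.subtype_image hs) _
    MeasurableSet.univ, Set.image_univ, Subtype.range_coe]
  exact measure_Icc_lt_top

theorem c_pos (k : ℕ) : 0 < c k := by
  have := c_bound k
  rw [abs_le] at this
  linarith [this.1]

theorem c_le (k : ℕ) : c k ≤ 33 / 32 := by
  have := c_bound k
  rw [abs_le] at this
  linarith [this.2]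

noncomputable def dens (k : ℕ) (x : K) : ENNReal := ENNReal.ofReal ((seq k).f x / c k)

theorem dens_meas (k : ℕ) : Measurable (dens k) :=
  ENNReal.measurable_ofReal.comp ((((seq k).ud.cont.comp continuous_subtype_val).div_const _).measurable)

noncomputable def Pm (k : ℕ) : Measure K := μ0.withDensity (dens k)

theorem Pm_prob (k : ℕ) : IsProbabilityMeasure (Pm k) := by
  constructor
  unfold Pm
  rw [withDensity_apply _ MeasurableSet.univ, Measure.restrict_univ]
  unfold dens
  have hc : Continuous fun x : K => (seq k).f x / c k :=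
    ((seq k).ud.cont.comp continuous_subtype_val).div_const _
  rw [← ofReal_integral_eq_lintegral_ofReal]
  · rw [int_μ0 (fun x => (seq k).f x / c k), intervalIntegral.integral_div]
    have : (∫ x in (1:ℝ)..2, (seq k).f x) = c k := rfl
    rw [this, div_self (c_pos k).ne', ENNReal.ofReal_one]
  · exact hc.integrable_of_hasCompactSupport (HasCompactSupport.of_compactSpace _)
  · exact Eventually.of_forall fun x => div_nonneg ((seq k).ud.nonneg _) (c_pos k).le

noncomputable def P (k : ℕ) : ProbabilityMeasure K := ⟨Pm k, Pm_prob k⟩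

theorem int_P (k : ℕ) (g : ℝ → ℂ) :
    ∫ x : K, g x ∂(P k : Measure K) = (∫ x in (1:ℝ)..2, g x * ((seq k).f x : ℂ)) / (c k : ℂ) := by
  show ∫ x : K, g x ∂(Pm k) = _
  unfold Pm
  rw [integral_withDensity_eq_integral_toReal_smul (dens_meas k)
    (Eventually.of_forall fun x => ENNReal.ofReal_lt_top)]
  have h1 : ∀ x : K, (dens k x).toReal • g x = g x * ((seq k).f x : ℂ) / (c k : ℂ) := by
    intro x
    unfold dens
    rw [ENNReal.toReal_ofReal (div_nonneg ((seq k).ud.nonneg _) (c_pos k).le), real_smul]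
    push_cast
    ring
  rw [integral_congr_ae (Eventually.of_forall h1),
    int_μ0 (fun x => g x * ((seq k).f x : ℂ) / (c k : ℂ)), intervalIntegral.integral_div]

theorem exists_lim : ∃ μ : ProbabilityMeasure K, Tendsto P (hyperfilter ℕ : Filter ℕ) (𝓝 μ) := by
  have h := isCompact_univ (X := ProbabilityMeasure K)
  obtain ⟨μ, -, hμ⟩ := h.ultrafilter_le_nhds ((hyperfilter ℕ).map P) (by simp)
  exact ⟨μ, hμ⟩

noncomputable def μ : ProbabilityMeasure K := exists_lim.choose

theorem μ_tend : Tendsto P (hyperfilter ℕ : Filter ℕ) (𝓝 μ) := exists_lim.choose_spec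

theorem μ_int (g : ℝ → ℂ) (hg : Continuous g) :
    Tendsto (fun k => (∫ x in (1:ℝ)..2, g x * ((seq k).f x : ℂ)) / (c k : ℂ))
      (hyperfilter ℕ : Filter ℕ) (𝓝 (∫ x : K, g x ∂(μ : Measure K))) := by
  have h := (ProbabilityMeasure.tendsto_iff_forall_integral_rclike_tendsto ℂ).1 μ_tend
    (BoundedContinuousFunction.mkOfCompact ⟨fun x : K => g x, hg.comp continuous_subtype_val⟩)
  simp only [BoundedContinuousFunction.mkOfCompact_apply, ContinuousMap.coe_mk] at h
  exact h.congr fun k => int_P k g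

theorem μ_v : Tendsto (fun n : ℕ => ∫ x : K, v x ^ n ∂(μ : Measure K)) atTop (𝓝 0) := by
  rw [Metric.tendsto_nhds]
  intro ε hε
  obtain ⟨k, hk⟩ := exists_pow_lt_of_lt_one (show 0 < ε by exact hε) (show (1:ℝ) / 2 < 1 by norm_num)
  have h1 := (Metric.tendsto_nhds.1 ((seq k).ud.tend 0)) (ε / 4) (by positivity)
  filter_upwards [h1] with n hn
  rw [dist_zero_right] at hn ⊢
  have h2 := (μ_int (fun x => v x ^ n) (v_cont.pow n)).norm
  refine lt_of_le_of_lt (le_of_tendsto h2 (b := ε / 2) ?_) (by linarith)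
  have h3 : ∀ᶠ j : ℕ in (hyperfilter ℕ : Filter ℕ), k ≤ j :=
    Nat.hyperfilter_le_atTop (eventually_ge_atTop k)
  filter_upwards [h3] with j hj
  have h4 : (∫ x in (1:ℝ)..2, v x ^ n * ((seq j).f x : ℂ)) = J (seq j).f 0 n := by
    unfold J E
    simp
  rw [h4, norm_div, norm_real, Real.norm_eq_abs, abs_of_pos (c_pos j), div_le_iff₀ (c_pos j)]
  have h5 := J_A k j n hj
  have h6 : ‖J (seq j).f 0 n‖ ≤ ‖J (seq j).f 0 n - J (seq k).f 0 n‖ + ‖J (seq k).f 0 n‖ := by
    simpa using norm_add_le (J (seq j).f 0 n - J (seq k).f 0 n) (J (seq k).f 0 n)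
  have h7 := c_bound j
  rw [abs_le] at h7
  nlinarith [h7.1]

theorem μ_e (k : ℕ) : 1 / 5 ≤
    ‖∫ x : K, exp (I * ((-((seq (k + 1)).r : ℤ) : ℤ) : ℂ) * (((x : ℝ) : ℂ))) ∂(μ : Measure K)‖ := by
  have hc : Continuous fun x : ℝ => exp (I * ((-((seq (k + 1)).r : ℤ) : ℤ) : ℂ) * ((x : ℝ) : ℂ)) :=
    continuous_exp.comp (continuous_const.mul continuous_ofReal)
  have h2 := (μ_int _ hc).norm
  refine ge_of_tendsto h2 ?_
  have h3 : ∀ᶠ j : ℕ in (hyperfilter ℕ : Filter ℕ), k + 1 ≤ j :=
    Nat.hyperfilter_le_atTop (eventually_ge_atTop (k + 1))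
  filter_upwards [h3] with j hj
  have h4 : (∫ x in (1:ℝ)..2, exp (I * ((-((seq (k + 1)).r : ℤ) : ℤ) : ℂ) * ((x : ℝ) : ℂ)) *
      ((seq j).f x : ℂ)) = J (seq j).f (-((seq (k + 1)).r : ℤ)) 0 := by
    unfold J E
    simp
  rw [h4, norm_div, norm_real, Real.norm_eq_abs, abs_of_pos (c_pos j), le_div_iff₀ (c_pos j)]
  have h5 := J_C k j hj
  have h6 := c_le j
  linarith

end Pool.Agent.TH232.Cog
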