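import Pool.Agent.TH232.Cog.Lim

set_option autoImplicit false
open Filter Topology MeasureTheory Complex

namespace Pool.Agent.TH232.Cog

/-- the Hilbert space -/
abbrev H : Type := Lp ℂ 2 (μ : Measure K)

/-- multiplication operators by continuous functions -/
noncomputable def M : C(K, ℂ) →L[ℂ] (H →L[ℂ] H) :=
  ((ContinuousLinearMap.mul ℂ ℂ).holderL (μ : Measure K) ⊤ 2 2).comp
    (ContinuousMap.toLp ⊤ (μ : Measure K) ℂ)

theorem M_coe (g : C(K, ℂ)) (f : H) : (M g f : K → ℂ) =ᵐ[(μ : Measure K)] fun x => g x * f x := by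
  have h1 := (ContinuousLinearMap.mul ℂ ℂ).coeFn_holder (r := 2)
    (ContinuousMap.toLp ⊤ (μ : Measure K) ℂ g) f
  have h2 := ContinuousMap.coeFn_toLp (p := ⊤) (μ : Measure K) (𝕜 := ℂ) g
  filter_upwards [h1, h2] with x hx1 hx2
  show ((ContinuousLinearMap.mul ℂ ℂ).holder 2 (ContinuousMap.toLp ⊤ (μ : Measure K) ℂ g) f) x = _
  rw [hx1, hx2]
  rfl

theorem M_norm (g : C(K, ℂ)) : ‖M g‖ ≤ ‖g‖ := by
  refine ContinuousLinearMap.opNorm_le_bound _ (norm_nonneg _) fun f => ?_
  refine Lp.norm_le_mul_norm_of_ae_le_mul ?_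
  filter_upwards [M_coe g f] with x hx
  rw [hx, norm_mul]
  exact mul_le_mul_of_nonneg_right (g.norm_coe_le_norm x) (norm_nonneg _)

theorem M_one : M 1 = 1 := by
  ext1 f
  apply Lp.ext
  filter_upwards [M_coe 1 f] with x hx
  rw [hx]
  simp

theorem M_mul (g h : C(K, ℂ)) : M (g * h) = M g * M h := by
  ext1 f
  apply Lp.ext
  filter_upwards [M_coe (g * h) f, M_coe g (M h f), M_coe h f] with x hx1 hx2 hx3
  rw [ContinuousLinearMap.mul_apply, hx1, hx2, hx3]
  simp [mul_assoc]

theorem M_pow (g : C(K, ℂ)) (n : ℕ) : M (g ^ n) = (M g) ^ n := by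
  induction n with
  | zero => simp [M_one]
  | succ n ih => rw [pow_succ, pow_succ, M_mul, ih]

/-- the vector given by a continuous function -/
noncomputable def vec (a : C(K, ℂ)) : H := ContinuousMap.toLp 2 (μ : Measure K) ℂ a

theorem inner_M (g a b : C(K, ℂ)) :
    inner ℂ (M g (vec a)) (vec b) = ∫ x, (starRingEnd ℂ) (g x) * ((starRingEnd ℂ) (a x) * b x)
      ∂(μ : Measure K) := by
  rw [L2.inner_def]
  refine integral_congr_ae ?_
  filter_upwards [M_coe g (vec a), ContinuousMap.coeFn_toLp (p := 2) (μ : Measure K) (𝕜 := ℂ) a,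
    ContinuousMap.coeFn_toLp (p := 2) (μ : Measure K) (𝕜 := ℂ) b] with x h1 h2 h3
  rw [h1]
  unfold vec
  rw [h2, h3, RCLike.inner_apply]
  simp only [map_mul]
  ring

/-- the exponentials -/
noncomputable def e (t : ℝ) : C(K, ℂ) :=
  ⟨fun x => exp (I * (t : ℂ) * ((x : ℝ) : ℂ)), by fun_prop⟩

theorem e_zero : e 0 = 1 := by
  ext x
  simp [e]

theorem e_add (s t : ℝ) : e (s + t) = e s * e t := by
  ext x
  simp only [e, ContinuousMap.coe_mk, ContinuousMap.mul_apply]
  rw [← exp_add]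
  congr 1
  push_cast
  ring

theorem e_norm_le (t : ℝ) : ‖e t‖ ≤ 1 := by
  rw [ContinuousMap.norm_le _ zero_le_one]
  intro x
  simp [e, norm_exp]

theorem e_cont : Continuous e :=
  ContinuousMap.continuous_of_continuous_uncurry _ (by
    unfold Function.uncurry e
    simp only [ContinuousMap.coe_mk]
    fun_prop)

/-- the semigroup -/
noncomputable def T (t : ℝ) : H →L[ℂ] H := M (e t)

theorem e_int : IntegrableOn (fun t : ℝ => ((Real.exp (-t) : ℝ) : ℂ) • e t) (Set.Ioi 0) := by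
  have hc : Continuous fun t : ℝ => ((Real.exp (-t) : ℝ) : ℂ) • e t :=
    (continuous_ofReal.comp (Real.continuous_exp.comp continuous_neg)).smul e_cont
  refine Integrable.mono' (integrableOn_exp_neg_Ioi 0) hc.aestronglyMeasurable ?_
  refine Eventually.of_forall fun t => ?_
  rw [norm_smul, norm_real, Real.norm_eq_abs, abs_of_pos (Real.exp_pos _)]
  exact mul_le_of_le_one_right (Real.exp_pos _).le (e_norm_le t)

/-- the symbol of the cogenerator -/
noncomputable def vK : C(K, ℂ) := ⟨fun x => v (x : ℝ), v_cont.comp continuous_subtype_val⟩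

theorem int_e : (1 : C(K, ℂ)) - (2 : ℂ) • ∫ t in Set.Ioi (0 : ℝ), ((Real.exp (-t) : ℝ) : ℂ) • e t = vK := by
  ext x
  have h1 : (∫ t in Set.Ioi (0 : ℝ), ((Real.exp (-t) : ℝ) : ℂ) • e t) x
      = ∫ t in Set.Ioi (0 : ℝ), (((Real.exp (-t) : ℝ) : ℂ) • e t) x :=
    ((ContinuousMap.evalCLM ℂ x).integral_comp_comm e_int).symm
  simp only [ContinuousMap.sub_apply, ContinuousMap.one_apply, ContinuousMap.smul_apply]
  rw [h1]
  have h2 : ∀ t : ℝ, (((Real.exp (-t) : ℝ) : ℂ) • e t) x = exp ((I * ((x : ℝ) : ℂ) - 1) * t) := by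
    intro t
    simp only [ContinuousMap.smul_apply, e, ContinuousMap.coe_mk, smul_eq_mul]
    rw [ofReal_exp, ← exp_add]
    congr 1
    push_cast
    ring
  simp only [h2]
  rw [integral_exp_mul_complex_Ioi (by simp)]
  simp only [vK, ContinuousMap.coe_mk, v]
  have hd := den_ne x
  have hd' : (I * ((x : ℝ) : ℂ) - 1) ≠ 0 := by
    intro h
    apply hd
    linear_combination -h
  simp only [ofReal_zero, mul_zero, exp_zero, smul_eq_mul]
  field_simp
  ring

theorem cogen (z : H) : z - (2 : ℂ) • ∫ t in Set.Ioi (0 : ℝ), ((Real.exp (-t) : ℝ) : ℂ) • T t z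
    = M vK z := by
  have h1 : ∫ t in Set.Ioi (0 : ℝ), ((Real.exp (-t) : ℝ) : ℂ) • T t z
      = M (∫ t in Set.Ioi (0 : ℝ), ((Real.exp (-t) : ℝ) : ℂ) • e t) z := by
    have := (((ContinuousLinearMap.apply ℂ H z).comp M)).integral_comp_comm e_int
    simp only [ContinuousLinearMap.comp_apply, ContinuousLinearMap.apply_apply] at this
    rw [← this]
    refine integral_congr_ae (Eventually.of_forall fun t => ?_)
    simp only [map_smul, ContinuousLinearMap.smul_apply]
    rfl
  rw [h1, ← int_e, map_sub, map_smul, M_one]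
  simp

end Pool.Agent.TH232.Cog
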