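import Mathlib

set_option autoImplicit false
open Filter Topology MeasureTheory Complex intervalIntegral

namespace Pool.Agent.TH232.Cog

/-- Van der Corput's second derivative test by a regularised integration by parts. -/
theorem osc (F : ℝ → ℂ) (w κ : ℝ → ℝ) (s : ℝ) (hs : s = 1 ∨ s = -1)
    (hF : ∀ x, HasDerivAt F (I * (w x : ℂ) * F x) x)
    (hw : ∀ x, HasDerivAt w (κ x) x) (hκc : Continuous κ)
    (hκ : ∀ x ∈ Set.Icc (1:ℝ) 2, 0 ≤ s * κ x)
    (hn : ∀ x, ‖F x‖ ≤ 1) (l : ℝ) (hl : 0 < l) :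
    ‖∫ x in (1:ℝ)..2, F x‖ ≤ (1 + Real.pi) / l
      + ∫ x in (1:ℝ)..2, l ^ 2 / (w x ^ 2 + l ^ 2) := by
  have hFc : Continuous F := continuous_iff_continuousAt.2 fun x => (hF x).continuousAt
  have hwc : Continuous w := continuous_iff_continuousAt.2 fun x => (hw x).continuousAt
  have hpos : ∀ x, 0 < w x ^ 2 + l ^ 2 := fun x => by positivity
  have hpos' : ∀ x, w x ^ 2 + l ^ 2 ≠ 0 := fun x => (hpos x).ne'
  set q : ℝ → ℝ := fun x => w x / (w x ^ 2 + l ^ 2) with hq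
  set q' : ℝ → ℝ := fun x => κ x * (l ^ 2 - w x ^ 2) / (w x ^ 2 + l ^ 2) ^ 2 with hq'
  have hqd : ∀ x, HasDerivAt q (q' x) x := by
    intro x
    have h1 : HasDerivAt (fun y => w y ^ 2 + l ^ 2) (2 * w x * κ x) x := by
      have := ((hw x).pow 2).add_const (l ^ 2)
      simpa [mul_comm, mul_assoc] using this
    have h2 := (hw x).div h1 (hpos' x)
    refine h2.congr_deriv ?_
    simp only [hq']
    congr 1
    ring
  set G : ℝ → ℂ := fun x => F x * (-I * (q x : ℂ)) with hG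
  have hGd : ∀ x, HasDerivAt G (F x * ((w x * q x : ℝ) : ℂ) - I * F x * (q' x : ℂ)) x := by
    intro x
    have h3 : HasDerivAt (fun y => (-I * (q y : ℂ))) (-I * (q' x : ℂ)) x :=
      ((hqd x).ofReal_comp).const_mul (-I)
    have h4 := (hF x).mul h3
    refine h4.congr_deriv ?_
    push_cast
    linear_combination (-(F x) * (w x : ℂ) * (q x : ℂ)) * I_mul_I
  have hq'c : Continuous q' := by
    simp only [hq']
    exact (hκc.mul (continuous_const.sub (hwc.pow 2))).div₀ (((hwc.pow 2).add continuous_const).pow 2)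
      (fun x => pow_ne_zero _ (hpos' x))
  have hqc : Continuous q := hwc.div₀ ((hwc.pow 2).add continuous_const) hpos'
  have hwq : Continuous fun x => ((w x * q x : ℝ) : ℂ) :=
    continuous_ofReal.comp (hwc.mul hqc)
  have hG'c : Continuous fun x => F x * ((w x * q x : ℝ) : ℂ) - I * F x * (q' x : ℂ) :=
    (hFc.mul hwq).sub ((continuous_const.mul hFc).mul (continuous_ofReal.comp hq'c))
  have hint : ∫ x in (1:ℝ)..2, (F x * ((w x * q x : ℝ) : ℂ) - I * F x * (q' x : ℂ)) = G 2 - G 1 :=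
    integral_eq_sub_of_hasDerivAt (fun x _ => hGd x) (hG'c.intervalIntegrable _ _)
  have hr : Continuous fun x => l ^ 2 / (w x ^ 2 + l ^ 2) :=
    continuous_const.div₀ ((hwc.pow 2).add continuous_const) hpos'
  have hdec : ∀ x, F x = (F x * ((w x * q x : ℝ) : ℂ) - I * F x * (q' x : ℂ))
      + (I * F x * (q' x : ℂ) + F x * ((l ^ 2 / (w x ^ 2 + l ^ 2) : ℝ) : ℂ)) := by
    intro x
    have h5 : (w x * q x) + l ^ 2 / (w x ^ 2 + l ^ 2) = 1 := by
      simp only [hq]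
      field_simp
    have h6 : ((w x * q x : ℝ) : ℂ) + ((l ^ 2 / (w x ^ 2 + l ^ 2) : ℝ) : ℂ) = 1 := by
      rw [← ofReal_add, h5, ofReal_one]
    linear_combination (-F x) * h6
  have hc2 : Continuous fun x => I * F x * (q' x : ℂ) :=
    (continuous_const.mul hFc).mul (continuous_ofReal.comp hq'c)
  have hc3 : Continuous fun x => F x * ((l ^ 2 / (w x ^ 2 + l ^ 2) : ℝ) : ℂ) :=
    hFc.mul (continuous_ofReal.comp hr)
  have hsum : ∫ x in (1:ℝ)..2, F x = (G 2 - G 1) + ((∫ x in (1:ℝ)..2, I * F x * (q' x : ℂ))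
      + ∫ x in (1:ℝ)..2, F x * ((l ^ 2 / (w x ^ 2 + l ^ 2) : ℝ) : ℂ)) := by
    have e1 : ∫ x in (1:ℝ)..2, (I * F x * (q' x : ℂ) + F x * ((l ^ 2 / (w x ^ 2 + l ^ 2) : ℝ) : ℂ))
        = (∫ x in (1:ℝ)..2, I * F x * (q' x : ℂ))
      + ∫ x in (1:ℝ)..2, F x * ((l ^ 2 / (w x ^ 2 + l ^ 2) : ℝ) : ℂ) :=
      integral_add (hc2.intervalIntegrable _ _) (hc3.intervalIntegrable _ _)
    have e2 : ∫ x in (1:ℝ)..2, ((F x * ((w x * q x : ℝ) : ℂ) - I * F x * (q' x : ℂ))
      + (I * F x * (q' x : ℂ) + F x * ((l ^ 2 / (w x ^ 2 + l ^ 2) : ℝ) : ℂ)))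
        = (∫ x in (1:ℝ)..2, (F x * ((w x * q x : ℝ) : ℂ) - I * F x * (q' x : ℂ)))
      + ∫ x in (1:ℝ)..2, (I * F x * (q' x : ℂ) + F x * ((l ^ 2 / (w x ^ 2 + l ^ 2) : ℝ) : ℂ)) :=
      integral_add (hG'c.intervalIntegrable _ _) ((hc2.add hc3).intervalIntegrable _ _)
    rw [← hint, ← e1, ← e2]
    exact integral_congr fun x _ => hdec x
  -- bounds
  have hGb : ∀ x, ‖G x‖ ≤ 1 / (2 * l) := by
    intro x
    have h7 : |q x| ≤ 1 / (2 * l) := by
      simp only [hq]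
      rw [abs_div, abs_of_pos (hpos x), div_le_div_iff₀ (hpos x) (by positivity)]
      nlinarith [sq_nonneg (|w x| - l), sq_abs (w x), abs_nonneg (w x)]
    calc ‖G x‖ = ‖F x‖ * |q x| := by
          simp only [hG, norm_mul, norm_neg, norm_I, one_mul, norm_real, Real.norm_eq_abs]
      _ ≤ 1 * (1 / (2 * l)) := mul_le_mul (hn x) h7 (abs_nonneg _) zero_le_one
      _ = 1 / (2 * l) := one_mul _
  have hB1 : ‖G 2 - G 1‖ ≤ 1 / l := by
    calc ‖G 2 - G 1‖ ≤ ‖G 2‖ + ‖G 1‖ := norm_sub_le _ _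
      _ ≤ 1 / (2 * l) + 1 / (2 * l) := add_le_add (hGb 2) (hGb 1)
      _ = 1 / l := by field_simp; norm_num
  -- arctan
  have hat : ∀ x, HasDerivAt (fun y => s * (Real.arctan (w y / l) / l))
      (s * (κ x / (w x ^ 2 + l ^ 2))) x := by
    intro x
    have h8 := (((hw x).div_const l).arctan.div_const l).const_mul s
    refine h8.congr_deriv ?_
    congr 1
    have hp := hpos' x
    have hl' := hl.ne'
    have hp2 : 1 + (w x / l) ^ 2 = (w x ^ 2 + l ^ 2) / l ^ 2 := by field_simp; ring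
    rw [hp2]
    field_simp
  have hKc : Continuous fun x => s * (κ x / (w x ^ 2 + l ^ 2)) :=
    continuous_const.mul (hκc.div₀ ((hwc.pow 2).add continuous_const) hpos')
  have hKint : ∫ x in (1:ℝ)..2, s * (κ x / (w x ^ 2 + l ^ 2))
      = s * (Real.arctan (w 2 / l) / l) - s * (Real.arctan (w 1 / l) / l) :=
    integral_eq_sub_of_hasDerivAt (fun x _ => hat x) (hKc.intervalIntegrable _ _)
  have hKb : ∫ x in (1:ℝ)..2, s * (κ x / (w x ^ 2 + l ^ 2)) ≤ Real.pi / l := by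
    rw [hKint]
    have a1 := Real.arctan_lt_pi_div_two (w 2 / l)
    have a2 := Real.neg_pi_div_two_lt_arctan (w 2 / l)
    have a3 := Real.arctan_lt_pi_div_two (w 1 / l)
    have a4 := Real.neg_pi_div_two_lt_arctan (w 1 / l)
    have : s * (Real.arctan (w 2 / l) / l) - s * (Real.arctan (w 1 / l) / l)
        = (s * (Real.arctan (w 2 / l) - Real.arctan (w 1 / l))) / l := by ring
    rw [this]
    apply div_le_div_of_nonneg_right _ hl.le
    rcases hs with rfl | rfl <;> linarith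
  have hB2 : ‖∫ x in (1:ℝ)..2, I * F x * (q' x : ℂ)‖ ≤ Real.pi / l := by
    refine le_trans (norm_integral_le_of_norm_le (g := fun x => s * (κ x / (w x ^ 2 + l ^ 2)))
      (by norm_num) ?_ (hKc.intervalIntegrable _ _)) hKb
    refine Eventually.of_forall fun x hx => ?_
    have hx' : x ∈ Set.Icc (1:ℝ) 2 := ⟨hx.1.le, hx.2⟩
    have h9 : s * κ x = |κ x| := by
      have := hκ x hx'
      rcases hs with rfl | rfl
      · rw [one_mul] at this ⊢; exact (abs_of_nonneg this).symm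
      · rw [neg_one_mul] at this ⊢; rw [abs_of_nonpos (by linarith)]
    have h10 : ‖I * F x * (q' x : ℂ)‖ ≤ |q' x| := by
      rw [norm_mul, norm_mul, norm_I, one_mul, norm_real, Real.norm_eq_abs]
      exact mul_le_of_le_one_left (abs_nonneg _) (hn x)
    refine h10.trans ?_
    have h11 : s * (κ x / (w x ^ 2 + l ^ 2)) = |κ x| / (w x ^ 2 + l ^ 2) := by
      rw [← mul_div_assoc, h9]
    rw [h11]
    simp only [hq']
    rw [abs_div, abs_mul, abs_of_pos (pow_pos (hpos x) 2), div_le_div_iff₀ (pow_pos (hpos x) 2) (hpos x)]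
    have h12 : |l ^ 2 - w x ^ 2| ≤ w x ^ 2 + l ^ 2 := by
      rw [abs_le]
      constructor <;> nlinarith [sq_nonneg (w x), sq_nonneg l]
    have h13 := hpos x
    calc |κ x| * |l ^ 2 - w x ^ 2| * (w x ^ 2 + l ^ 2)
        ≤ |κ x| * (w x ^ 2 + l ^ 2) * (w x ^ 2 + l ^ 2) := by gcongr
      _ = |κ x| * (w x ^ 2 + l ^ 2) ^ 2 := by ring
  have hB3 : ‖∫ x in (1:ℝ)..2, F x * ((l ^ 2 / (w x ^ 2 + l ^ 2) : ℝ) : ℂ)‖
      ≤ ∫ x in (1:ℝ)..2, l ^ 2 / (w x ^ 2 + l ^ 2) := by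
    refine norm_integral_le_of_norm_le (by norm_num) ?_ (hr.intervalIntegrable _ _)
    refine Eventually.of_forall fun x _ => ?_
    have : 0 ≤ l ^ 2 / (w x ^ 2 + l ^ 2) := by have := hpos x; positivity
    rw [norm_mul, norm_real, Real.norm_eq_abs, abs_of_nonneg this]
    exact mul_le_of_le_one_left this (hn x)
  rw [hsum]
  calc _ ≤ ‖G 2 - G 1‖ + (‖∫ x in (1:ℝ)..2, I * F x * (q' x : ℂ)‖
        + ‖∫ x in (1:ℝ)..2, F x * ((l ^ 2 / (w x ^ 2 + l ^ 2) : ℝ) : ℂ)‖) :=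
        (norm_add_le _ _).trans (add_le_add le_rfl (norm_add_le _ _))
    _ ≤ 1 / l + (Real.pi / l + ∫ x in (1:ℝ)..2, l ^ 2 / (w x ^ 2 + l ^ 2)) :=
        add_le_add hB1 (add_le_add hB2 hB3)
    _ = _ := by ring

end Pool.Agent.TH232.Cog
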