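import Pool.Agent.TH232.Cog.Est

set_option autoImplicit false
open Filter Topology MeasureTheory Complex intervalIntegral

namespace Pool.Agent.TH232.Cog

/-- the oscillatory integral against a density -/
noncomputable def J (f : ℝ → ℝ) (m : ℤ) (n : ℕ) : ℂ := ∫ x in (1:ℝ)..2, E m n x * (f x : ℂ)

structure UD (f : ℝ → ℝ) : Prop where
  cont : Continuous f
  nonneg : ∀ x, 0 ≤ f x
  dec : Tendsto (fun p : ℤ × ℕ => J f p.1 p.2) cofinite (𝓝 0)

theorem UD_one : UD (fun _ => 1) where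
  cont := continuous_const
  nonneg _ := zero_le_one
  dec := by
    have := E_tend
    simpa [J] using this

theorem E_cos (m : ℤ) (n : ℕ) (r : ℤ) (x : ℝ) :
    E m n x * ((Real.cos (r * x) : ℝ) : ℂ) = (E (m + r) n x + E (m - r) n x) / 2 := by
  unfold E
  rw [ofReal_cos, Complex.cos]
  push_cast
  have h1 : exp (I * ((m : ℂ) + r) * x) = exp (I * m * x) * exp (((r : ℂ) * x) * I) := by
    rw [← exp_add]; congr 1; ring
  have h2 : exp (I * ((m : ℂ) - r) * x) = exp (I * m * x) * exp (-((r : ℂ) * x) * I) := by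
    rw [← exp_add]; congr 1; ring
  rw [h1, h2]
  ring

theorem J_int {f : ℝ → ℝ} (hf : Continuous f) (m : ℤ) (n : ℕ) :
    IntervalIntegrable (fun x => E m n x * (f x : ℂ)) volume 1 2 :=
  ((E_cont m n).mul (continuous_ofReal.comp hf)).intervalIntegrable _ _

/-- multiply the density by `1 + cos (r x)` -/
noncomputable def step (f : ℝ → ℝ) (r : ℤ) (x : ℝ) : ℝ := f x * (1 + Real.cos (r * x))

theorem J_step {f : ℝ → ℝ} (hf : Continuous f) (r m : ℤ) (n : ℕ) :
    J (step f r) m n = J f m n + (J f (m + r) n + J f (m - r) n) / 2 := by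
  unfold J
  have h1 : ∀ x : ℝ, E m n x * ((step f r x : ℝ) : ℂ)
      = E m n x * (f x : ℂ) + ((1 / 2 : ℂ) * (E (m + r) n x * (f x : ℂ))
        + (1 / 2 : ℂ) * (E (m - r) n x * (f x : ℂ))) := by
    intro x
    have := E_cos m n r x
    unfold step
    push_cast at this ⊢
    linear_combination (f x : ℂ) * this
  rw [integral_congr (fun x _ => h1 x)]
  rw [integral_add (J_int hf m n) (((J_int hf (m + r) n).const_mul _).add
    ((J_int hf (m - r) n).const_mul _)),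
    integral_add ((J_int hf (m + r) n).const_mul _) ((J_int hf (m - r) n).const_mul _),
    intervalIntegral.integral_const_mul, intervalIntegral.integral_const_mul]
  ring

theorem step_cont {f : ℝ → ℝ} (hf : Continuous f) (r : ℤ) : Continuous (step f r) := by
  unfold step
  exact hf.mul (continuous_const.add (Real.continuous_cos.comp (continuous_const.mul continuous_id)))

theorem UD_step {f : ℝ → ℝ} (hf : UD f) (r : ℤ) : UD (step f r) where
  cont := step_cont hf.cont r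
  nonneg x := mul_nonneg (hf.nonneg x) (by have := Real.neg_one_le_cos (r * x); linarith)
  dec := by
    have h1 : Tendsto (fun p : ℤ × ℕ => J f (p.1 + r) p.2) cofinite (𝓝 0) :=
      hf.dec.comp (f := Prod.map (fun a : ℤ => a + r) (fun b : ℕ => b))
        (Function.Injective.prodMap (add_left_injective r) Function.injective_id).tendsto_cofinite
    have h2 : Tendsto (fun p : ℤ × ℕ => J f (p.1 - r) p.2) cofinite (𝓝 0) :=
      hf.dec.comp (f := Prod.map (fun a : ℤ => a - r) (fun b : ℕ => b))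
        (Function.Injective.prodMap (sub_left_injective) Function.injective_id).tendsto_cofinite
    have h3 := hf.dec.add ((h1.add h2).div_const 2)
    simp only [add_zero, zero_div] at h3
    exact h3.congr fun p => (J_step hf.cont r p.1 p.2).symm

theorem UD.bound {f : ℝ → ℝ} (hf : UD f) {ε : ℝ} (hε : 0 < ε) :
    ∃ M : ℕ, ∀ m : ℤ, (M : ℤ) ≤ |m| → ∀ n : ℕ, ‖J f m n‖ ≤ ε := by
  have h := (Metric.tendsto_nhds.1 hf.dec) ε hε
  rw [Filter.eventually_cofinite] at h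
  obtain ⟨B, hB⟩ := (h.image (fun p : ℤ × ℕ => |p.1|)).bddAbove
  refine ⟨(B.toNat + 1), fun m hm n => ?_⟩
  by_contra hc
  have : |m| ≤ B := hB ⟨(m, n), by
    simp only [Set.mem_ofPred_eq, dist_zero_right]
    push Not at hc ⊢
    exact hc.le, rfl⟩
  have h2 := Int.self_le_toNat B
  push_cast at hm
  omega

theorem UD.tend {f : ℝ → ℝ} (hf : UD f) (m : ℤ) : Tendsto (fun n : ℕ => J f m n) atTop (𝓝 0) := by
  rw [← Nat.cofinite_eq_atTop]
  exact hf.dec.comp (f := Prod.mk m) (Prod.mk_right_injective m).tendsto_cofinite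

/-- a state of the recursion: density and frequency -/
structure St where
  f : ℝ → ℝ
  r : ℕ
  ud : UD f

theorem next_exists (k : ℕ) (s : St) : ∃ r' : ℕ, s.r < r' ∧
    ∀ m : ℤ, (r' : ℤ) - s.r ≤ |m| → ∀ n : ℕ, ‖J s.f m n‖ ≤ (1 / 2) ^ k / 64 := by
  obtain ⟨M, hM⟩ := s.ud.bound (ε := (1 / 2) ^ k / 64) (by positivity)
  refine ⟨s.r + M + 1, by omega, fun m hm n => hM m ?_ n⟩
  push_cast at hm
  omega

noncomputable def next (k : ℕ) (s : St) : St where
  f := step s.f (((next_exists k s).choose : ℕ) : ℤ)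
  r := (next_exists k s).choose
  ud := UD_step s.ud _

noncomputable def seq : ℕ → St
  | 0 => ⟨fun _ => 1, 0, UD_one⟩
  | k + 1 => next k (seq k)

theorem seq_f (k : ℕ) : (seq (k + 1)).f = step (seq k).f ((seq (k + 1)).r : ℤ) := rfl

theorem seq_lt (k : ℕ) : (seq k).r < (seq (k + 1)).r := (next_exists k (seq k)).choose_spec.1

theorem seq_b (k : ℕ) (m : ℤ) (hm : ((seq (k + 1)).r : ℤ) - (seq k).r ≤ |m|) (n : ℕ) :
    ‖J (seq k).f m n‖ ≤ (1 / 2) ^ k / 64 := (next_exists k (seq k)).choose_spec.2 m hm n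

theorem seq_mono : StrictMono fun k => (seq k).r := strictMono_nat_of_lt_succ seq_lt

theorem seq_A (k : ℕ) (n : ℕ) :
    ‖J (seq (k + 1)).f 0 n - J (seq k).f 0 n‖ ≤ (1 / 2) ^ k / 64 := by
  rw [seq_f, J_step (seq k).ud.cont, add_sub_cancel_left, norm_div]
  have hlt := seq_lt k
  have h1 := seq_b k (0 + ((seq (k + 1)).r : ℤ)) (by rw [abs_of_nonneg] <;> omega) n
  have h2 := seq_b k (0 - ((seq (k + 1)).r : ℤ)) (by rw [abs_of_nonpos] <;> omega) n
  have h3 : ‖(2 : ℂ)‖ = 2 := by simp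
  rw [h3, div_le_iff₀ (by norm_num)]
  calc _ ≤ _ := norm_add_le _ _
    _ ≤ _ := add_le_add h1 h2
    _ = _ := by ring

theorem seq_B (k j : ℕ) (hj : j ≤ k) :
    ‖J (seq (k + 1)).f (-((seq j).r : ℤ)) 0 - J (seq k).f (-((seq j).r : ℤ)) 0‖
      ≤ (1 / 2) ^ k / 64 := by
  rw [seq_f, J_step (seq k).ud.cont, add_sub_cancel_left, norm_div]
  have hlt := seq_lt k
  have hle : (seq j).r ≤ (seq k).r := seq_mono.monotone hj
  have h1 := seq_b k (-((seq j).r : ℤ) + ((seq (k + 1)).r : ℤ)) (by rw [abs_of_nonneg] <;> omega) 0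
  have h2 := seq_b k (-((seq j).r : ℤ) - ((seq (k + 1)).r : ℤ)) (by rw [abs_of_nonpos] <;> omega) 0
  have h3 : ‖(2 : ℂ)‖ = 2 := by simp
  rw [h3, div_le_iff₀ (by norm_num)]
  calc _ ≤ _ := norm_add_le _ _
    _ ≤ _ := add_le_add h1 h2
    _ = _ := by ring

theorem seq_C (k : ℕ) :
    ‖J (seq (k + 1)).f (-((seq (k + 1)).r : ℤ)) 0 - J (seq k).f 0 0 / 2‖ ≤ 1 / 32 := by
  rw [seq_f, J_step (seq k).ud.cont]
  have hlt := seq_lt k
  have h1 := seq_b k (-((seq (k + 1)).r : ℤ)) (by rw [abs_of_nonpos] <;> omega) 0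
  have h2 := seq_b k (-((seq (k + 1)).r : ℤ) - ((seq (k + 1)).r : ℤ))
    (by rw [abs_of_nonpos] <;> omega) 0
  have h0 : -((seq (k + 1)).r : ℤ) + ((seq (k + 1)).r : ℤ) = 0 := by ring
  rw [h0]
  have hp : ((1:ℝ) / 2) ^ k ≤ 1 := pow_le_one₀ (by norm_num) (by norm_num)
  have he : J (seq k).f (-((seq (k + 1)).r : ℤ)) 0 + (J (seq k).f 0 0
      + J (seq k).f (-((seq (k + 1)).r : ℤ) - ((seq (k + 1)).r : ℤ)) 0) / 2 - J (seq k).f 0 0 / 2
      = J (seq k).f (-((seq (k + 1)).r : ℤ)) 0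
      + J (seq k).f (-((seq (k + 1)).r : ℤ) - ((seq (k + 1)).r : ℤ)) 0 / 2 := by ring
  rw [he]
  have h3 : ‖(2 : ℂ)‖ = 2 := by simp
  calc _ ≤ _ := norm_add_le _ _
    _ ≤ (1 / 2) ^ k / 64 + (1 / 2) ^ k / 64 / 2 := by
        rw [norm_div, h3]
        exact add_le_add h1 (by linarith)
    _ ≤ 1 / 32 := by linarith

/-- telescoping -/
theorem tele (a : ℕ → ℂ) (k : ℕ) (h : ∀ i, k ≤ i → ‖a (i + 1) - a i‖ ≤ (1 / 2) ^ i / 64) (j : ℕ)
    (hj : k ≤ j) : ‖a j - a k‖ ≤ (1 / 2) ^ k / 32 := by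
  have : ∀ d : ℕ, ‖a (k + d) - a k‖ ≤ (1 / 2) ^ k / 32 * (1 - (1 / 2) ^ d) := by
    intro d
    induction d with
    | zero => simp
    | succ d ih =>
      have h1 := h (k + d) (by omega)
      calc ‖a (k + (d + 1)) - a k‖ = ‖(a (k + d + 1) - a (k + d)) + (a (k + d) - a k)‖ := by
            congr 1
            rw [add_assoc]
            ring
        _ ≤ (1 / 2) ^ (k + d) / 64 + (1 / 2) ^ k / 32 * (1 - (1 / 2) ^ d) :=
            (norm_add_le _ _).trans (add_le_add h1 ih)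
        _ = _ := by rw [pow_add, pow_succ]; ring
  obtain ⟨d, rfl⟩ := Nat.exists_eq_add_of_le hj
  refine (this d).trans ?_
  have h1 : (0:ℝ) < (1 / 2) ^ k := by positivity
  have h2 : (0:ℝ) < (1 / 2) ^ d := by positivity
  nlinarith

theorem mass_zero : J (seq 0).f 0 0 = 1 := by
  have : (seq 0).f = fun _ => 1 := rfl
  rw [this]
  simp [J, E]
  norm_num

theorem J_A (k j n : ℕ) (hj : k ≤ j) :
    ‖J (seq j).f 0 n - J (seq k).f 0 n‖ ≤ (1 / 2) ^ k / 32 :=
  tele (fun i => J (seq i).f 0 n) k (fun i _ => seq_A i n) j hj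

/-- the mass -/
noncomputable def c (k : ℕ) : ℝ := ∫ x in (1:ℝ)..2, (seq k).f x

theorem c_eq (k : ℕ) : J (seq k).f 0 0 = (c k : ℂ) := by
  unfold J c
  rw [← integral_ofReal]
  exact integral_congr fun x _ => by simp [E]

theorem c_bound (k : ℕ) : |c k - 1| ≤ 1 / 32 := by
  have := J_A 0 k 0 (Nat.zero_le _)
  rw [mass_zero, c_eq] at this
  rw [← ofReal_one, ← ofReal_sub, norm_real, Real.norm_eq_abs] at this
  simpa using this

theorem J_C (k j : ℕ) (hj : k + 1 ≤ j) : 1 / 4 ≤ ‖J (seq j).f (-((seq (k + 1)).r : ℤ)) 0‖ := by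
  have h1 := tele (fun i => J (seq i).f (-((seq (k + 1)).r : ℤ)) 0) (k + 1)
    (fun i hi => seq_B i (k + 1) hi) j hj
  have h2 := seq_C k
  have h3 := c_bound k
  have hp : ((1:ℝ) / 2) ^ (k + 1) ≤ 1 := pow_le_one₀ (by norm_num) (by norm_num)
  have h4 : ‖J (seq k).f 0 0 / 2‖ = |c k| / 2 := by
    rw [c_eq, norm_div, norm_real, Real.norm_eq_abs]; simp
  rw [abs_le] at h3
  have h5 : 31 / 32 ≤ |c k| := by
    rw [abs_of_nonneg (by linarith)]; linarith
  set X := J (seq j).f (-((seq (k + 1)).r : ℤ)) 0 with hX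
  set Y := J (seq (k + 1)).f (-((seq (k + 1)).r : ℤ)) 0 with hY
  set Z := J (seq k).f 0 0 / 2 with hZ
  have h6 : ‖Z‖ ≤ ‖X‖ + ‖X - Y‖ + ‖Y - Z‖ := by
    have : Z = X - (X - Y) - (Y - Z) := by ring
    calc ‖Z‖ = ‖X - (X - Y) - (Y - Z)‖ := by rw [← this]
      _ ≤ ‖X - (X - Y)‖ + ‖Y - Z‖ := norm_sub_le _ _
      _ ≤ _ := add_le_add (norm_sub_le _ _) le_rfl
  linarith

end Pool.Agent.TH232.Cog
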